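import Pool.Agent.Results.MP_b2ceab_nt.SparseExceptions
import Pool.Agent.U513.AP.Sparse

/-!
# Equal prime supports of `x ^ (2 ^ n) - 1` and `y ^ (2 ^ n) - 1`, near integral polynomials at simultaneous approximations

The starting file bounds the number of the `y ≤ N` which satisfy with some positive `x < y` the hypothesis for `n = 1, 2`. Here: for all
points `α` outside of a set of small Hausdorff dimension, NO `y` near an integral polynomial at an approximation of `α` with a large
denominator does.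
-/

set_option autoImplicit false

open Finset

namespace Pool.Agent.Results.MP_b2ceab_nt.Approximations

open Pool.Agent.U513.AP
open Pool.Agent.Results.MP_b2ceab_nt.SparseExceptions (Linked)

/-- The property no positive `x < y` is linked with `y` holds at approximations outside of exceptional sets of exponent `4 / 5`. -/
theorem result : AtApproximations (ι := Unit) (4 / 5) (fun _ y => ∀ x : ℕ, 0 < x → x < y → ¬ Linked x y) := by
  classical
  refine sparse_law (by norm_num) _ fun _ ε hε => ?_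
  have h := SparseExceptions.result.2.2.1
  have hl2 : 0 < Real.log 2 := Real.log_pos (by norm_num)
  refine ⟨64 * (1 / (ε * Real.log 2) + 8), 1, fun X hX => ?_⟩
  have hX1 : (1 : ℝ) ≤ X := by exact_mod_cast hX
  have hX0 : (0 : ℝ) < X := by linarith
  have h1 := h X hX
  have h2 : ({n : ℕ | 1 ≤ n ∧ n ≤ X ∧ ¬ ∀ x : ℕ, 0 < x → x < n → ¬ Linked x n}.ncard : ℝ) ≤
      ((SparseExceptions.Exc X).card : ℝ) := by
    rw [← Set.ncard_coe_finset]
    refine Nat.cast_le.2 (Set.ncard_le_ncard ?_ (Finset.finite_toSet _))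
    rintro n ⟨g1, g2, g3⟩
    push Not at g3
    obtain ⟨x, g4, g5, g6⟩ := g3
    rw [mem_coe, SparseExceptions.Exc, mem_filter, mem_Icc]
    exact ⟨⟨g1, g2⟩, x, g4, g5, g6⟩
  refine h2.trans (h1.trans ?_)
  have h3 : ((Nat.log 2 X : ℕ) : ℝ) ≤ (X : ℝ) ^ ε / (ε * Real.log 2) := by
    have h4 : ((Nat.log 2 X : ℕ) : ℝ) * Real.log 2 ≤ Real.log X := by
      rw [← Real.log_pow]
      apply Real.log_le_log (by positivity)
      exact_mod_cast Nat.pow_log_le_self 2 (by omega : X ≠ 0)
    have h5 : Real.log X ≤ (X : ℝ) ^ ε / ε := Real.log_le_rpow_div hX0.le hε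
    rw [le_div_iff₀ (by positivity)]
    rw [le_div_iff₀ hε] at h5
    nlinarith
  have h6 : 1 ≤ (X : ℝ) ^ ε := Real.one_le_rpow hX1 hε.le
  have h7 : ((Nat.log 2 X : ℕ) : ℝ) + 8 ≤ (1 / (ε * Real.log 2) + 8) * (X : ℝ) ^ ε := by
    have : (X : ℝ) ^ ε / (ε * Real.log 2) = 1 / (ε * Real.log 2) * (X : ℝ) ^ ε := by ring
    rw [this] at h3
    nlinarith
  calc 64 * (X : ℝ) ^ ((4 : ℝ) / 5) * ((Nat.log 2 X : ℕ) + 8)
      ≤ 64 * (X : ℝ) ^ ((4 : ℝ) / 5) * ((1 / (ε * Real.log 2) + 8) * (X : ℝ) ^ ε) :=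
        mul_le_mul_of_nonneg_left h7 (by positivity)
    _ = _ := by
        rw [Real.rpow_add hX0]
        ring

end Pool.Agent.Results.MP_b2ceab_nt.Approximations
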